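import Pool.Agent.MAD.K13

/-!
# Minimal `α`-degrees below `0'` when a regular `α`-cardinal lies between the two projecta

MP_021b59_lc, Q1, for all admissible `α` such that `σ2p(α) < κ < σ1p(α)` for some `κ` that is regular
in `L_α`. Method: trees of height `κ` that are elements of `L_α`; blocks of fewer than `κ`
requirements are decided inside a `Σ₁` elementary hull that is an element of `L_α` and is closed under
sequences of length below `κ`; the left cut of the path through all trees has minimal `α`-degree.
-/

namespace Pool.Agent.Results.MP_021b59_lc.BetweenProjecta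

open Pool.Agent.MAD

/-- `L_α` is a model of `KP`, `κ` is regular in `L_α`, `σ2p(α) ≤ π < κ < σ1p(α)`: there is a minimal
`α`-degree below `0'`. -/
theorem result {α κ π : Ordinal.{0}} (hKP : KP (LL α)) (hκ : κ < α) (hω : Ordinal.omega0 < κ)
    (hreg : RegularIn α κ) (h1 : BelowSigma1Proj α κ) (hπ : π < κ) (h2 : Sigma2ProjLe α π) :
    ∃ A : Set V, MinimalDegree (LL α) A ∧ BelowJump (LL α) A :=
  main_reg hKP hκ hω hreg h1 hπ h2

end Pool.Agent.Results.MP_021b59_lc.BetweenProjecta
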